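import Pool.Agent.Lib.MP_17fa2c_pr.TD.All2

/-!
# MP_17fa2c_pr: the tridiagonal entries at growing depth

The statement `S(k)` of the problem for every `k(n) = o(n ^ (3/7))`, `β = 1, 2, 4`; in particular
for `k(n) = ⌊n ^ (2/5)⌋`, for which `k(n) / n ^ (1/3) → ∞`.
-/

set_option autoImplicit false

open Filter Topology
open scoped RealInnerProductSpace Quaternion

namespace Pool.Agent.Results.MP_17fa2c_pr.GrowingDepth

open Pool.Agent.Lib.MP17fa2c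

/-- `S(k)` holds, and continuous versions of the rescaled entries exist, for `𝔽 = ℝ, ℂ, ℍ`
(that is for `β = 1, 2, 4`). -/
def SAll (k : ℕ → ℕ) : Prop :=
  (SHolds coR k ∧ SHolds coC k ∧ SHolds coH k) ∧ HasCont coR k ∧ HasCont coC k ∧ HasCont coH k

theorem all_of (k : ℕ → ℕ)
    (hk : Tendsto (fun n => (k n : ℝ) / (n : ℝ) ^ (3 / 7 : ℝ)) atTop (𝓝 0)) : SAll k := by
  have hk' := allKS2.2.2.1 k hk
  obtain ⟨F1, h1, h1'⟩ := allFSR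
  obtain ⟨F2, h2, h2'⟩ := allFSC
  obtain ⟨F4, h4, h4'⟩ := allFSQ
  have e1 : (fun a x => ⟪F1.e a, x⟫) = coR := by funext a x; exact h1' a x
  have e2 : (fun a x => ⟪F2.e a, x⟫) = coC := by funext a x; exact h2' a x
  have e4 : (fun a x => ⟪F4.e a, x⟫) = coH := by funext a x; exact h4' a x
  refine ⟨⟨?_, ?_, ?_⟩, ?_, ?_, ?_⟩
  · have h := allAS2 1 ℝ F1 (by rw [h1]; rfl) k hk
    rwa [e1] at h
  · have h := allAS2 2 ℂ F2 (by rw [h2]; rfl) k hk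
    rwa [e2] at h
  · have h := allAS2 4 ℍ[ℝ] F4 (by rw [h4]; rfl) k hk
    rwa [e4] at h
  · have h := allEXI 1 ℝ F1 (by rw [h1]; rfl) k hk'
    rwa [e1] at h
  · have h := allEXI 2 ℂ F2 (by rw [h2]; rfl) k hk'
    rwa [e2] at h
  · have h := allEXI 4 ℍ[ℝ] F4 (by rw [h4]; rfl) k hk'
    rwa [e4] at h

/-- `S(k)` holds for every `k(n) = o(n ^ (3/7))`, for `β = 1, 2, 4`; in particular for
`k(n) = ⌊n ^ (2/5)⌋`, which tends to infinity with `k(n) / n ^ (1/3) → ∞`. -/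
theorem result :
    (∀ k : ℕ → ℕ, Tendsto (fun n => (k n : ℝ) / (n : ℝ) ^ (3 / 7 : ℝ)) atTop (𝓝 0) → SAll k) ∧
    ∃ k : ℕ → ℕ, (∀ n : ℕ, k n = ⌊(n : ℝ) ^ (2 / 5 : ℝ)⌋₊) ∧ Tendsto k atTop atTop ∧
      Tendsto (fun n : ℕ => (k n : ℝ) / (n : ℝ) ^ (1 / 3 : ℝ)) atTop atTop ∧ SAll k :=
  ⟨all_of, fun n => ⌊(n : ℝ) ^ (2 / 5 : ℝ)⌋₊, fun _ => rfl, allKS2.2.2.2, allKS2.1,
    all_of _ allKS2.2.1⟩

end Pool.Agent.Results.MP_17fa2c_pr.GrowingDepth
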